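import Pool.Agent.H66.LZ.LCS

/-! Crew LZ, part DSW: Dynkin–Specht–Wever (helper66). -/

set_option autoImplicit false

open scoped commutatorElement

namespace H66.LZ

open H70.LZ

section
variable {Γ X : Type} [Group Γ] (f : X → Γ)

/-- left normed commutator of `g` with the letters of `v` -/
def act (g : Γ) (v : List X) : Γ := v.foldl (fun g b => ⁅g, f b⁆) g

lemma act_nil (g : Γ) : act f g [] = g := rfl

lemma act_cons (g : Γ) (b : X) (v : List X) : act f g (b :: v) = act f ⁅g, f b⁆ v := rfl

lemma gc_append {w : List X} (hw : w ≠ []) (v : List X) : gc f (w ++ v) = act f (gc f w) v := by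
  cases w with
  | nil => exact absurd rfl hw
  | cons a l =>
    simp only [List.cons_append, gc, act, List.foldl_append]

lemma gc_snoc {w : List X} (hw : w ≠ []) (a : X) : gc f (w ++ [a]) = ⁅gc f w, f a⁆ := by
  rw [gc_append f hw, act_cons, act_nil]

lemma act_mem (v : List X) : ∀ (k : ℕ) (g : Γ), g ∈ gm Γ k → act f g v ∈ gm Γ (k + v.length) := by
  induction v with
  | nil => intro k g hg; exact hg
  | cons b v ih =>
    intro k g hg
    rw [act_cons]
    have h := ih (k + 1) ⁅g, f b⁆ (comm_mem (by omega) hg (top_mem (f b)))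
    rw [List.length_cons]
    refine gm_anti Γ ?_ h
    omega

lemma gc_mem (w : List X) : gc f w ∈ gm Γ (w.length - 1) := by
  cases w with
  | nil => exact one_mem _
  | cons a l =>
    have h := act_mem f l 0 (f a) (top_mem (f a))
    refine gm_anti Γ ?_ h
    simp

variable (n : ℕ) {M : Type} [AddCommGroup M] (μ : gm Γ n →* Multiplicative M)

open Classical in
/-- total extension of `μ` -/
noncomputable def nu (g : Γ) : M := if h : g ∈ gm Γ n then Multiplicative.toAdd (μ ⟨g, h⟩) else 0

lemma nu_of_mem {g : Γ} (h : g ∈ gm Γ n) : nu n μ g = Multiplicative.toAdd (μ ⟨g, h⟩) := by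
  rw [nu, dif_pos h]

lemma nu_mul {g g' : Γ} (hg : g ∈ gm Γ n) (hg' : g' ∈ gm Γ n) :
    nu n μ (g * g') = nu n μ g + nu n μ g' := by
  rw [nu_of_mem n μ hg, nu_of_mem n μ hg', nu_of_mem n μ (mul_mem hg hg'), ← toAdd_mul, ← map_mul]
  rfl

variable (hμ : ∀ g : gm Γ n, (g : Γ) ∈ gm Γ (n + 1) → μ g = 1)

include hμ in
lemma nu_act (v : List X) : ∀ k, k + v.length = n →
    (∀ g ∈ gm Γ k, ∀ g' ∈ gm Γ k,
      nu n μ (act f (g * g') v) = nu n μ (act f g v) + nu n μ (act f g' v)) ∧
    ∀ g ∈ gm Γ (k + 1), nu n μ (act f g v) = 0 := by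
  induction v with
  | nil =>
    intro k hk
    have hk' : k = n := by simpa using hk
    subst hk'
    refine ⟨fun g hg g' hg' => nu_mul k μ hg hg', fun g hg => ?_⟩
    rw [act_nil, nu_of_mem k μ (gm_anti Γ (Nat.le_succ k) hg), hμ _ hg]
    rfl
  | cons b v ih =>
    intro k hk
    rw [List.length_cons] at hk
    obtain ⟨h1, h2⟩ := ih (k + 1) (by omega)
    refine ⟨fun g hg g' hg' => ?_, fun g hg => ?_⟩
    · rw [act_cons, act_cons, act_cons]
      have hb := top_mem (f b)
      have m1 : ⁅g, f b⁆ ∈ gm Γ (k + 1) := comm_mem (by omega) hg hb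
      have m2 : ⁅g', f b⁆ ∈ gm Γ (k + 1) := comm_mem (by omega) hg' hb
      have e := mul_left_comm' hg hg' hb
      have hz : (⁅g, f b⁆ * ⁅g', f b⁆)⁻¹ * ⁅g * g', f b⁆ ∈ gm Γ (k + 1 + 1) := by
        rw [← QuotientGroup.eq]
        exact e.symm
      have e2 : ⁅g * g', f b⁆ = (⁅g, f b⁆ * ⁅g', f b⁆) *
          ((⁅g, f b⁆ * ⁅g', f b⁆)⁻¹ * ⁅g * g', f b⁆) := by group
      rw [e2, h1 _ (mul_mem m1 m2) _ (gm_anti Γ (Nat.le_succ _) hz), h2 _ hz, add_zero,
        h1 _ m1 _ m2]
    · rw [act_cons]
      exact h2 _ (comm_mem (by omega) hg (top_mem (f b)))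

include hμ in
lemma nu_act_one {v : List X} {k : ℕ} (hk : k + v.length = n) : nu n μ (act f 1 v) = 0 :=
  (nu_act f n μ hμ v k hk).2 1 (one_mem _)

include hμ in
lemma nu_act_inv {v : List X} {k : ℕ} (hk : k + v.length = n) {g : Γ} (hg : g ∈ gm Γ k) :
    nu n μ (act f g⁻¹ v) = - nu n μ (act f g v) := by
  have h := (nu_act f n μ hμ v k hk).1 g hg g⁻¹ (inv_mem hg)
  rw [mul_inv_cancel, nu_act_one f n μ hμ hk] at h
  exact (neg_eq_of_add_eq_zero_right h.symm).symm

include hμ in
/-- antisymmetry -/
lemma nu_swap {v : List X} {i j k : ℕ} (hk : k + v.length = n) (hij : k = i + j + 1) {a b : Γ}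
    (ha : a ∈ gm Γ i) (hb : b ∈ gm Γ j) :
    nu n μ (act f ⁅a, b⁆ v) = - nu n μ (act f ⁅b, a⁆ v) := by
  rw [← nu_act_inv f n μ hμ hk (comm_mem (by omega) hb ha), commutatorElement_inv]

include hμ in
/-- inverse in the first variable -/
lemma nu_inv_left {v : List X} {i j k : ℕ} (hk : k + v.length = n) (hij : k = i + j + 1) {a b : Γ}
    (ha : a ∈ gm Γ i) (hb : b ∈ gm Γ j) :
    nu n μ (act f ⁅a⁻¹, b⁆ v) = - nu n μ (act f ⁅a, b⁆ v) := by
  subst hij
  have e := mul_left_comm' ha (inv_mem ha) hb
  rw [mul_inv_cancel, commutatorElement_one_left, QuotientGroup.mk_one, eq_comm,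
    QuotientGroup.eq_one_iff] at e
  have h0 := (nu_act f n μ hμ v _ hk).2 _ e
  rw [(nu_act f n μ hμ v _ hk).1 _ (comm_mem le_rfl ha hb) _ (comm_mem le_rfl (inv_mem ha) hb)] at h0
  exact (neg_eq_of_add_eq_zero_right h0).symm

include hμ in
/-- Jacobi identity -/
lemma nu_jacobi {v : List X} {i j k : ℕ} (hk : k + v.length = n) (hij : k = i + j + 2) {a b d : Γ}
    (ha : a ∈ gm Γ i) (hb : b ∈ gm Γ j) :
    nu n μ (act f ⁅a, ⁅b, d⁆⁆ v) = nu n μ (act f ⁅⁅a, b⁆, d⁆ v) - nu n μ (act f ⁅⁅a, d⁆, b⁆ v) := by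
  have hd := top_mem d
  have J := (t_CID Γ i j 0).2.2 a ha b hb d hd
  obtain ⟨h1, h2⟩ := nu_act f n μ hμ v k hk
  have m1 : ⁅⁅a, b⁆, d⁆ ∈ gm Γ k := comm_mem (by omega) (comm_mem (le_refl (i + j + 1)) ha hb) hd
  have m2 : ⁅⁅b, d⁆, a⁆ ∈ gm Γ k := comm_mem (by omega) (comm_mem (le_refl (j + 0 + 1)) hb hd) ha
  have m3 : ⁅⁅d, a⁆, b⁆ ∈ gm Γ k := comm_mem (by omega) (comm_mem (le_refl (0 + i + 1)) hd ha) hb
  have J0 : nu n μ (act f (⁅⁅a, b⁆, d⁆ * ⁅⁅b, d⁆, a⁆ * ⁅⁅d, a⁆, b⁆) v) = 0 := by
    apply h2
    refine gm_anti Γ ?_ J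
    omega
  rw [h1 _ (mul_mem m1 m2) _ m3, h1 _ m1 _ m2] at J0
  have hbd : ⁅b, d⁆ ∈ gm Γ (j + 1) := comm_mem (by omega) hb hd
  have e1 : nu n μ (act f ⁅a, ⁅b, d⁆⁆ v) = - nu n μ (act f ⁅⁅b, d⁆, a⁆ v) :=
    nu_swap f n μ hμ (v := v) (i := i) (j := j + 1) (k := k) hk (by omega) (a := a) (b := ⁅b, d⁆)
      ha hbd
  have e2 : nu n μ (act f ⁅⁅d, a⁆, b⁆ v) = - nu n μ (act f ⁅⁅a, d⁆, b⁆ v) := by
    have h3 : ⁅a, d⁆ ∈ gm Γ (i + 1) := comm_mem (by omega) ha hd
    have := nu_inv_left f n μ hμ (v := v) (i := i + 1) (j := j) (k := k) hk (by omega)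
      (a := ⁅a, d⁆) (b := b) h3 hb
    rw [commutatorElement_inv] at this
    exact this
  rw [e2] at J0
  rw [e1]
  refine neg_eq_of_add_eq_zero_right ?_
  rw [← J0]
  abel

end

lemma rc_snoc {S X : Type} [Ring S] (x : X → S) {w : List X} (hw : w ≠ []) (a : X) :
    rc x (w ++ [a]) = rc x w * x a - x a * rc x w := by
  cases w with
  | nil => exact absurd rfl hw
  | cons b l => simp only [List.cons_append, rc, List.foldl_append, List.foldl_cons,
      List.foldl_nil, cm]

theorem t_DSW : S_DSW := by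
  intro Γ _ X f n M _ μ hμ S _ x D φ h1 h2 w hw
  -- the value on monomials
  have hφ : ∀ w : List X, w.length = n + 1 → D ((w.map x).prod) = nu n μ (gc f w) := by
    intro w hw
    have hm : gc f w ∈ gm Γ n := by
      have := gc_mem f w
      rw [hw] at this
      simpa using this
    rw [h1 w hw, h2 w hw hm, nu_of_mem n μ hm]
  -- the claim
  have claim : ∀ w : List X, w ≠ [] → ∀ u : List X, u ≠ [] → ∀ v : List X,
      u.length + w.length + v.length = n + 1 →
      D ((u.map x).prod * rc x w * (v.map x).prod) = nu n μ (act f ⁅gc f u, gc f w⁆ v) := by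
    intro w
    induction w using List.reverseRecOn with
    | nil => intro h; exact absurd rfl h
    | append_singleton w a ih =>
      intro _ u hu v hlen
      rcases eq_or_ne w [] with rfl | hw
      · have e1 : (u.map x).prod * rc x ([] ++ [a]) * (v.map x).prod =
            (((u ++ [a]) ++ v).map x).prod := by
          simp [rc, mul_assoc]
        rw [e1, hφ _ (by simp at hlen ⊢; omega), gc_append f (by simp), gc_snoc f hu]
        rfl
      · rw [List.length_append, List.length_singleton] at hlen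
        have e1 : (u.map x).prod * rc x (w ++ [a]) * (v.map x).prod =
            (u.map x).prod * rc x w * ((a :: v).map x).prod -
              ((u ++ [a]).map x).prod * rc x w * (v.map x).prod := by
          rw [rc_snoc x hw]
          simp only [List.map_append, List.prod_append, List.map_cons, List.prod_cons,
            List.map_nil, List.prod_nil, mul_one]
          noncomm_ring
        rw [e1, map_sub, ih hw u hu (a :: v) (by rw [List.length_cons]; omega),
          ih hw (u ++ [a]) (by simp) v (by rw [List.length_append, List.length_singleton]; omega),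
          act_cons, gc_snoc f hu, gc_snoc f hw]
        have hul : 1 ≤ u.length := List.length_pos_iff.2 hu
        have hwl : 1 ≤ w.length := List.length_pos_iff.2 hw
        exact (nu_jacobi f n μ hμ (v := v) (i := u.length - 1) (j := w.length - 1)
          (k := u.length - 1 + (w.length - 1) + 2) (by omega) rfl (gc_mem f u) (gc_mem f w)).symm
  -- the theorem with a suffix
  have main : ∀ w : List X, w ≠ [] → ∀ v : List X, w.length + v.length = n + 1 →
      D (rc x w * (v.map x).prod) = w.length • nu n μ (act f (gc f w) v) := by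
    intro w
    induction w using List.reverseRecOn with
    | nil => intro h; exact absurd rfl h
    | append_singleton w a ih =>
      intro _ v hlen
      rcases eq_or_ne w [] with rfl | hw
      · have e1 : rc x ([] ++ [a]) * (v.map x).prod = ((a :: v).map x).prod := by
          simp [rc]
        rw [e1, hφ _ (by simp at hlen ⊢; omega)]
        simp only [List.nil_append, List.length_singleton, one_smul]
        rfl
      · rw [List.length_append, List.length_singleton] at hlen
        have hwl : 1 ≤ w.length := List.length_pos_iff.2 hw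
        have e1 : rc x (w ++ [a]) * (v.map x).prod =
            rc x w * ((a :: v).map x).prod - (([a] : List X).map x).prod * rc x w * (v.map x).prod := by
          rw [rc_snoc x hw]
          simp only [List.map_cons, List.prod_cons, List.map_nil, List.prod_nil, mul_one]
          noncomm_ring
        have hc := claim w hw [a] (by simp) v (by rw [List.length_singleton]; omega)
        rw [e1, map_sub, ih hw (a :: v) (by rw [List.length_cons]; omega), hc, act_cons,
          gc_snoc f hw]
        have hs := nu_swap f n μ hμ (v := v) (i := 0) (j := w.length - 1)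
          (k := 0 + (w.length - 1) + 1) (by omega) rfl (top_mem (gc f [a])) (gc_mem f w)
        rw [hs, sub_neg_eq_add, List.length_append, List.length_singleton, add_smul, one_smul]
        rfl
  have hne : w ≠ [] := by
    rintro rfl
    simp at hw
  have h := main w hne [] (by simpa using hw)
  have hm : gc f w ∈ gm Γ n := by
    have := gc_mem f w
    rw [hw] at this
    simpa using this
  rw [h2 w hw hm, ← nu_of_mem n μ hm]
  simpa [hw, act_nil] using h

end H66.LZ
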