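import Pool.Agent.H70.LZ.Stm

/-! Crew LZ, parts LCS and CID: the lower central series (helper66). -/

set_option autoImplicit false

open scoped commutatorElement

namespace H66.LZ

open H70.LZ

/-- three subgroups lemma modulo a normal subgroup -/
lemma tsl {Γ : Type} [Group Γ] (A B C N : Subgroup Γ) [hN : N.Normal] (h1 : ⁅⁅B, C⁆, A⁆ ≤ N)
    (h2 : ⁅⁅C, A⁆, B⁆ ≤ N) : ⁅⁅A, B⁆, C⁆ ≤ N := by
  have key : ∀ H : Subgroup Γ, H.map (QuotientGroup.mk' N) = ⊥ ↔ H ≤ N := by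
    intro H
    rw [Subgroup.map_eq_bot_iff, QuotientGroup.ker_mk']
  rw [← key] at h1 h2 ⊢
  rw [Subgroup.map_commutator, Subgroup.map_commutator] at h1 h2 ⊢
  exact Subgroup.commutator_commutator_eq_bot_of_rotate h1 h2

instance gm_normal (Γ : Type) [Group Γ] (m : ℕ) : (gm Γ m).Normal := by
  unfold gm; infer_instance

lemma gm_succ (Γ : Type) [Group Γ] (m : ℕ) : gm Γ (m + 1) = ⁅gm Γ m, (⊤ : Subgroup Γ)⁆ := rfl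

lemma gm_zero (Γ : Type) [Group Γ] : gm Γ 0 = ⊤ := rfl

lemma gm_anti (Γ : Type) [Group Γ] {m n : ℕ} (h : m ≤ n) : gm Γ n ≤ gm Γ m :=
  Subgroup.lowerCentralSeries_antitone _ h

theorem t_LCS : S_LCS := by
  intro Γ _ m n
  induction n generalizing m with
  | zero => exact le_of_eq (gm_succ Γ m).symm
  | succ n ih =>
    rw [gm_succ Γ n, Subgroup.commutator_comm]
    apply tsl
    · have h1 := ih (m + 1)
      rw [gm_succ Γ m, Subgroup.commutator_comm (gm Γ m)] at h1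
      refine h1.trans (le_of_eq ?_)
      congr 1
      omega
    · have h2 := ih m
      refine (Subgroup.commutator_mono h2 le_rfl).trans (le_of_eq ?_)
      exact (gm_succ Γ (m + n + 1)).symm

lemma comm_mem {Γ : Type} [Group Γ] {m n k : ℕ} (hk : k ≤ m + n + 1) {a b : Γ}
    (ha : a ∈ gm Γ m) (hb : b ∈ gm Γ n) : ⁅a, b⁆ ∈ gm Γ k :=
  gm_anti Γ hk (t_LCS Γ m n (Subgroup.commutator_mem_commutator ha hb))

lemma top_mem {Γ : Type} [Group Γ] (g : Γ) : g ∈ gm Γ 0 := Subgroup.mem_top g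

/-- elements of `γ k` are central modulo `γ (k+1)` -/
lemma cen {Γ : Type} [Group Γ] {k : ℕ} {c : Γ} (hc : c ∈ gm Γ k) (g : Γ) :
    ((g * c * g⁻¹ : Γ) : Γ ⧸ gm Γ (k + 1)) = (c : Γ ⧸ gm Γ (k + 1)) := by
  rw [eq_comm, QuotientGroup.eq]
  have h : c⁻¹ * (g * c * g⁻¹) = ⁅c⁻¹, g⁆ := by
    rw [commutatorElement_def]; group
  rw [h]
  exact comm_mem (by omega) (inv_mem hc) (top_mem g)

lemma mul_left_comm' {Γ : Type} [Group Γ] {i j : ℕ} {a a' b : Γ} (_ha : a ∈ gm Γ i)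
    (ha' : a' ∈ gm Γ i) (hb : b ∈ gm Γ j) :
    ((⁅a * a', b⁆ : Γ) : Γ ⧸ gm Γ (i + j + 2)) = ((⁅a, b⁆ * ⁅a', b⁆ : Γ) : Γ ⧸ gm Γ (i + j + 2)) := by
  have hc : ⁅a', b⁆ ∈ gm Γ (i + j + 1) := comm_mem le_rfl ha' hb
  have h : ⁅a * a', b⁆ = (a * ⁅a', b⁆ * a⁻¹) * ⁅a, b⁆ := by
    simp only [commutatorElement_def]; group
  have h2 : ⁅a, b⁆ * ⁅a', b⁆ = (⁅a, b⁆ * ⁅a', b⁆ * ⁅a, b⁆⁻¹) * ⁅a, b⁆ := by group
  have e1 : (((a * ⁅a', b⁆ * a⁻¹) * ⁅a, b⁆ : Γ) : Γ ⧸ gm Γ (i + j + 2)) =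
      ((a * ⁅a', b⁆ * a⁻¹ : Γ) : Γ ⧸ gm Γ (i + j + 2)) * ((⁅a, b⁆ : Γ) : Γ ⧸ gm Γ (i + j + 2)) :=
    QuotientGroup.mk_mul _ _ _
  have e2 : (((⁅a, b⁆ * ⁅a', b⁆ * ⁅a, b⁆⁻¹) * ⁅a, b⁆ : Γ) : Γ ⧸ gm Γ (i + j + 2)) =
      ((⁅a, b⁆ * ⁅a', b⁆ * ⁅a, b⁆⁻¹ : Γ) : Γ ⧸ gm Γ (i + j + 2)) *
        ((⁅a, b⁆ : Γ) : Γ ⧸ gm Γ (i + j + 2)) := QuotientGroup.mk_mul _ _ _
  rw [h, h2, e1, e2, cen hc a, cen hc ⁅a, b⁆]

lemma mul_right_comm' {Γ : Type} [Group Γ] {i j : ℕ} {a b b' : Γ} (ha : a ∈ gm Γ i)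
    (_hb : b ∈ gm Γ j) (hb' : b' ∈ gm Γ j) :
    ((⁅a, b * b'⁆ : Γ) : Γ ⧸ gm Γ (i + j + 2)) = ((⁅a, b⁆ * ⁅a, b'⁆ : Γ) : Γ ⧸ gm Γ (i + j + 2)) := by
  have hc : ⁅a, b'⁆ ∈ gm Γ (i + j + 1) := comm_mem le_rfl ha hb'
  have h : ⁅a, b * b'⁆ = ⁅a, b⁆ * (b * ⁅a, b'⁆ * b⁻¹) := by
    simp only [commutatorElement_def]; group
  rw [h, QuotientGroup.mk_mul, cen hc b, ← QuotientGroup.mk_mul]

lemma quot_mul_inv {Γ : Type} [Group Γ] {k : ℕ} {x y : Γ}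
    (h : (x : Γ ⧸ gm Γ k) = (y : Γ ⧸ gm Γ k)) : x * y⁻¹ ∈ gm Γ k := by
  rw [← QuotientGroup.eq_one_iff (N := gm Γ k), QuotientGroup.mk_mul, QuotientGroup.mk_inv, h,
    mul_inv_cancel]

lemma conj_comm {Γ : Type} [Group Γ] {s t : ℕ} {x y : Γ} (hx : x ∈ gm Γ s) (hy : y ∈ gm Γ t)
    (g : Γ) : ((⁅x, g * y * g⁻¹⁆ : Γ) : Γ ⧸ gm Γ (s + t + 2)) =
      ((⁅x, y⁆ : Γ) : Γ ⧸ gm Γ (s + t + 2)) := by
  have hc : ⁅x, y⁆ ∈ gm Γ (s + t + 1) := comm_mem le_rfl hx hy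
  have hgy : ⁅g, y⁆ ∈ gm Γ (t + 1) := comm_mem (by omega) (top_mem g) hy
  have h1 : ⁅x, ⁅g, y⁆⁆ ∈ gm Γ (s + t + 2) := comm_mem (by omega) hx hgy
  have h : ⁅x, g * y * g⁻¹⁆ = ⁅x, ⁅g, y⁆⁆ * (⁅g, y⁆ * ⁅x, y⁆ * ⁅g, y⁆⁻¹) := by
    simp only [commutatorElement_def]; group
  rw [h, QuotientGroup.mk_mul, cen hc, (QuotientGroup.eq_one_iff _).2 h1, one_mul]

lemma hall_witt {Γ : Type} [Group Γ] (a b d : Γ) :
    ⁅⁅a, b⁆, b * d * b⁻¹⁆ * ⁅⁅b, d⁆, d * a * d⁻¹⁆ * ⁅⁅d, a⁆, a * b * a⁻¹⁆ = 1 := by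
  simp only [commutatorElement_def]; group

theorem t_CID : S_CID := by
  intro Γ _ i j l
  refine ⟨?_, ?_, ?_⟩
  · intro a ha a' ha' b hb
    exact quot_mul_inv (mul_left_comm' ha ha' hb)
  · intro a ha b hb b' hb'
    exact quot_mul_inv (mul_right_comm' ha hb hb')
  · intro a ha b hb d hd
    have h := hall_witt a b d
    have e1 : ((⁅⁅a, b⁆, b * d * b⁻¹⁆ : Γ) : Γ ⧸ gm Γ (i + j + l + 3)) =
        ((⁅⁅a, b⁆, d⁆ : Γ) : Γ ⧸ gm Γ (i + j + l + 3)) := by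
      have := conj_comm (comm_mem (le_refl (i + j + 1)) ha hb) hd b
      rw [show i + j + 1 + l + 2 = i + j + l + 3 by omega] at this
      exact this
    have e2 : ((⁅⁅b, d⁆, d * a * d⁻¹⁆ : Γ) : Γ ⧸ gm Γ (i + j + l + 3)) =
        ((⁅⁅b, d⁆, a⁆ : Γ) : Γ ⧸ gm Γ (i + j + l + 3)) := by
      have := conj_comm (comm_mem (le_refl (j + l + 1)) hb hd) ha d
      rw [show j + l + 1 + i + 2 = i + j + l + 3 by omega] at this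
      exact this
    have e3 : ((⁅⁅d, a⁆, a * b * a⁻¹⁆ : Γ) : Γ ⧸ gm Γ (i + j + l + 3)) =
        ((⁅⁅d, a⁆, b⁆ : Γ) : Γ ⧸ gm Γ (i + j + l + 3)) := by
      have := conj_comm (comm_mem (le_refl (l + i + 1)) hd ha) hb a
      rw [show l + i + 1 + j + 2 = i + j + l + 3 by omega] at this
      exact this
    rw [← QuotientGroup.eq_one_iff (N := gm Γ (i + j + l + 3)), QuotientGroup.mk_mul,
      QuotientGroup.mk_mul, ← e1, ← e2, ← e3, ← QuotientGroup.mk_mul, ← QuotientGroup.mk_mul, h,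
      QuotientGroup.mk_one]

end H66.LZ
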